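import Pool.Agent.W477.GM.Stms

set_option maxHeartbeats 1000000

namespace Pool.Agent.W477.GM.R490

open Pool.Agent.W477.GM

/-- the hypothesis of replacement -/
def hyp (φ : Fm) (m : ℕ) : Fm :=
  .all 0 (.imp (.mem 0 m) (.ex (m + 2) (.all 1 (.iff φ (.eq 1 (m + 2))))))

/-- the right side of the conclusion -/
def cnc (φ : Fm) (m : ℕ) : Fm := .ex 0 (.and (.mem 0 m) φ)

theorem bd_cnc (φ : Fm) (m : ℕ) (h : φ.bd ≤ m) : (cnc φ m).bd ≤ m + 1 := by
  simp only [cnc, Fm.bd, Fm.ex, Fm.neg, Fm.and]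
  omega

theorem bd_rep (φ : Fm) (m : ℕ) (h : φ.bd ≤ m) : (Fm.axRep φ m).bd ≤ m + 3 := by
  simp only [Fm.axRep, Fm.bd, Fm.ex, Fm.neg, Fm.and, Fm.iff]
  omega

section

variable {P : Type 1} [PartialOrder P] [OrderTop P] {S : SysData P}

theorem supp_fin (hH : HsF P S) (hS : SysAx S) (v : ℕ → Nm P) (hv : ∀ i, HS S (v i)) (n : ℕ) :
    ∃ e, ∀ g, g ∈ S.fix e → ∀ i, i ≤ n → ∀ p, feq (act g (v i)) (v i) p := by
  induction n with
  | zero =>
    obtain ⟨e, he⟩ := hH.supp (v 0) (hv 0)
    refine ⟨e, fun g hg i hi p => ?_⟩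
    obtain rfl : i = 0 := by omega
    exact he g hg p
  | succ n ih =>
    obtain ⟨e1, h1⟩ := ih
    obtain ⟨e2, h2⟩ := hH.supp (v (n + 1)) (hv _)
    obtain ⟨e, he⟩ := hS.dir e1 e2
    refine ⟨e, fun g hg i hi p => ?_⟩
    rcases Nat.lt_or_ge i (n + 1) with h | h
    · exact h1 g (he g hg).1 i (by omega) p
    · obtain rfl : i = n + 1 := by omega
      exact h2 g (he g hg).2 p

theorem main_aux (hE : EqF P) (hF : FcF P (HS S)) (hH : HsF P S) (h4 : P_SET)
    (hD : ∀ φ v p a, (∀ i, Liv S a (v i)) → Fc (HS S) φ v p → Fc (HS S) φ v (S.rho a p))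
    (hO : ∀ x, HS S x → ∃ (κ : Type) (z : κ → Nm P), (∀ k, ∃ g, g ∈ S.G ∧ z k = act g x) ∧
      ∀ g, g ∈ S.G → ∃ k, act g x = z k) (hS : SysAx S) (φ : Fm) (m : ℕ) (hφ : φ.bd ≤ m)
    (hm : 2 ≤ m) (v : ℕ → Nm P) (hv : ∀ i, HS S (v i))
    (hsup : ∃ e, ∀ g, g ∈ S.fix e → ∀ i p, feq (act g (v i)) (v i) p) :
    ∃ Y, HS S Y ∧ ∀ z r, HS S z → (fmem z Y r ↔ (Fc (HS S) (hyp φ m) v r ∧
      Fc (HS S) (cnc φ m) (Function.update v 1 z) r)) := by
  obtain ⟨a, ha⟩ := hH.livs ℕ v hv
  obtain ⟨ι, U, y, hx⟩ : ∃ (ι : Type) (U : ι → P → Prop) (y : ι → Nm P), v m = Nm.mk ι U y := by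
    cases h : v m with
    | mk ι U y => exact ⟨ι, U, y, rfl⟩
  have hyH : ∀ i, HS S (y i) := by
    have h := hv m
    rw [hx] at h
    exact hH.child ι U y h
  have hyL : ∀ i, Liv S a (y i) := by
    have h := ha m
    rw [hx] at h
    exact h.2
  have hsm := hS.small a
  let T : Type := Shrink.{0} {p : P // S.rho a p = p}
  let eT : {p : P // S.rho a p = p} ≃ T := equivShrink _
  let Q : ι → T → Nm P → Prop := fun i u t => HS S t ∧ ∃ q', S.rho a q' = (eT.symm u).1 ∧
    Fc (HS S) (hyp φ m) v q' ∧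
    Fc (HS S) φ (Function.update (Function.update v 0 (y i)) 1 t) q'
  have hch : ∀ iu : ι × T, ∃ t, HS S t ∧ ((∃ t', Q iu.1 iu.2 t') → Q iu.1 iu.2 t) := by
    intro iu
    by_cases h : ∃ t', Q iu.1 iu.2 t'
    · obtain ⟨t, ht⟩ := h
      exact ⟨t, ht.1, fun _ => ht⟩
    · exact ⟨v 0, hv 0, fun h' => absurd h' h⟩
  choose t htH htQ using hch
  have horb : ∀ iu : ι × T, ∃ (κ : Type) (z : κ → Nm P),
      (∀ k, ∃ g, g ∈ S.G ∧ z k = act g (t iu)) ∧ ∀ g, g ∈ S.G → ∃ k, act g (t iu) = z k :=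
    fun iu => hO (t iu) (htH iu)
  choose κ z hz1 hz2 using horb
  have hzH : ∀ k : (Σ iu : ι × T, κ iu), HS S (z k.1 k.2) := by
    intro k
    obtain ⟨g, hg, e⟩ := hz1 k.1 k.2
    rw [e]
    exact hH.act g hg _ (htH _)
  refine (h4 P S hS (Σ iu : ι × T, κ iu) (fun k => z k.1 k.2) (fun z' r =>
    Fc (HS S) (hyp φ m) v r ∧ Fc (HS S) (cnc φ m) (Function.update v 1 z') r) hzH
    ?_ ?_ ?_ ?_ ?_ ?_)
  · intro y' p q _ hqp h
    exact ⟨hF.mono _ _ _ _ hqp h.1, hF.mono _ _ _ _ hqp h.2⟩
  · intro y' p _ h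
    refine ⟨hF.dense _ _ _ fun q hq => ?_, hF.dense _ _ _ fun q hq => ?_⟩
    · obtain ⟨r, hr, h1, -⟩ := h q hq
      exact ⟨r, hr, h1⟩
    · obtain ⟨r, hr, -, h1⟩ := h q hq
      exact ⟨r, hr, h1⟩
  · intro y' y'' p _ _ he h
    refine ⟨h.1, hF.congr _ _ _ _ (fun i => ?_) h.2⟩
    by_cases hi : i = 1
    · subst hi
      rw [Function.update_self, Function.update_self]
      exact he
    · rw [Function.update_of_ne hi, Function.update_of_ne hi]
      exact hE.refl _ _
  · obtain ⟨e, he⟩ := hsup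
    refine ⟨e, fun g hg y' p hy' h => ?_⟩
    have hg' := hS.fsub e g hg
    have eqv := hF.equiv g (fun x hx => hH.act g hg' x hx)
      (fun x hx => hH.act g⁻¹ (hS.inv g hg') x hx)
    refine ⟨hF.congr _ (fun i => act g (v i)) v (g p) (fun i => he g hg i (g p))
      ((eqv _ v p).2 h.1), ?_⟩
    refine hF.congr _ (fun i => act g (Function.update v 1 y' i)) _ (g p) (fun i => ?_)
      ((eqv _ _ p).2 h.2)
    by_cases hi : i = 1
    · subst hi
      rw [Function.update_self, Function.update_self]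
      exact hE.refl _ _
    · rw [Function.update_of_ne hi, Function.update_of_ne hi]
      exact he g hg i (g p)
  · obtain ⟨b, hb⟩ := hH.livs (Σ iu : ι × T, κ iu) (fun k => z k.1 k.2) hzH
    refine ⟨max a b, fun k p h => ⟨hD _ _ _ _
      (fun i => hH.liv_mono a _ _ (le_max_left a b) (ha i)) h.1, hD _ _ _ _ (fun i => ?_) h.2⟩⟩
    by_cases hi : i = 1
    · subst hi
      rw [Function.update_self]
      exact hH.liv_mono b _ _ (le_max_right a b) (hb k)
    · rw [Function.update_of_ne hi]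
      exact hH.liv_mono a _ _ (le_max_left a b) (ha i)
  · intro z' r hz' h
    obtain ⟨hHr, hC⟩ := h
    obtain ⟨r1, hr1, u0, hu0, h1⟩ := (hF.ex 0 _ _ _).1 hC r le_rfl
    rw [hF.and] at h1
    obtain ⟨h1m, h1φ⟩ := h1
    have em : Function.update (Function.update v 1 z') 0 u0 m = Nm.mk ι U y := by
      rw [Function.update_of_ne (by omega), Function.update_of_ne (by omega), hx]
    have e0 : Function.update (Function.update v 1 z') 0 u0 0 = u0 := Function.update_self _ _ _
    have h1m' : fmem u0 (Nm.mk ι U y) r1 := by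
      have h2 : fmem (Function.update (Function.update v 1 z') 0 u0 0)
        (Function.update (Function.update v 1 z') 0 u0 m) r1 := h1m
      rw [em, e0] at h2
      exact h2
    obtain ⟨r2, hr2, i, hLab, hfe⟩ := h1m' r1 le_rfl
    -- the value at `y i`
    have h2φ : Fc (HS S) φ (Function.update (Function.update v 0 (y i)) 1 z') r2 := by
      rw [Function.update_comm (by omega : (0 : ℕ) ≠ 1)]
      refine hF.congr _ _ _ _ (fun j => ?_) (hF.mono _ _ _ _ hr2 h1φ)
      by_cases hj : j = 0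
      · subst hj
        rw [Function.update_self, Function.update_self]
        exact hfe
      · rw [Function.update_of_ne hj, Function.update_of_ne hj]
        exact hE.refl _ _
    have hHr2 : Fc (HS S) (hyp φ m) v r2 := hF.mono _ _ _ _ (hr2.trans hr1) hHr
    -- the index
    let u : T := eT ⟨S.rho a r2, hS.rho_rho a a r2 le_rfl⟩
    have hu : (eT.symm u).1 = S.rho a r2 := by
      simp only [u, Equiv.symm_apply_apply]
    have hQ : Q i u z' := ⟨hz', r2, hu.symm, hHr2, h2φ⟩
    obtain ⟨hT, q', hq'1, hq'2, hq'3⟩ := htQ (i, u) ⟨z', hQ⟩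
    simp only at hT hq'1 hq'2 hq'3
    rw [hu] at hq'1
    obtain ⟨g, hg, hgfix, s, hs1, hs2⟩ := hS.hom a r2 q' hq'1.le
    have eqv := hF.equiv g (fun x hx => hH.act g hg x hx)
      (fun x hx => hH.act g⁻¹ (hS.inv g hg) x hx)
    have h3 := (eqv φ _ q').2 hq'3
    have e3 : (fun j => act g (Function.update (Function.update v 0 (y i)) 1 (t (i, u)) j)) =
        Function.update (Function.update v 0 (y i)) 1 (act g (t (i, u))) := by
      funext j
      by_cases hj : j = 1
      · subst hj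
        rw [Function.update_self, Function.update_self]
      · rw [Function.update_of_ne hj, Function.update_of_ne hj]
        by_cases hj0 : j = 0
        · subst hj0
          rw [Function.update_self]
          exact hH.fix a g hgfix _ (hyL i)
        · rw [Function.update_of_ne hj0]
          exact hH.fix a g hgfix _ (ha j)
    rw [e3] at h3
    have h4s := hF.mono _ _ _ _ hs2 h3
    have h5s := hF.mono _ _ _ _ hs1 h2φ
    have hHs : Fc (HS S) (hyp φ m) v s := hF.mono _ _ _ _ hs1 hHr2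
    have hmem : fmem (y i) (Nm.mk ι U y) s := by
      refine hE.child ι U y i s ?_
      obtain ⟨w, hw, hwr⟩ := hLab
      exact ⟨w, hw, hs1.trans hwr⟩
    -- use the hypothesis
    have h6 : Fc (HS S) (.imp (.mem 0 m) (.ex (m + 2) (.all 1 (.iff φ (.eq 1 (m + 2))))))
      (Function.update v 0 (y i)) s := hHs (y i) (hyH i)
    have h7 : Fc (HS S) (.ex (m + 2) (.all 1 (.iff φ (.eq 1 (m + 2)))))
        (Function.update v 0 (y i)) s := by
      refine h6 s le_rfl ?_
      show fmem (Function.update v 0 (y i) 0) (Function.update v 0 (y i) m) s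
      rw [Function.update_self, Function.update_of_ne (by omega), hx]
      exact hmem
    obtain ⟨s', hs', t0, ht0, h8⟩ := (hF.ex (m + 2) _ _ _).1 h7 s le_rfl
    have key : ∀ w, HS S w → Fc (HS S) φ (Function.update (Function.update v 0 (y i)) 1 w) s' →
        feq w t0 s' := by
      intro w hw hφw
      have h9 : Fc (HS S) (.iff φ (.eq 1 (m + 2)))
        (Function.update (Function.update (Function.update v 0 (y i)) (m + 2) t0) 1 w) s' :=
        h8 w hw
      rw [hF.iff] at h9
      have h10 := (h9 s' le_rfl).1 ((hF.bd φ _ _ s' (fun j hj => ?_)).1 hφw)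
      · have h11 : feq (Function.update (Function.update (Function.update v 0 (y i)) (m + 2) t0) 1 w 1)
          (Function.update (Function.update (Function.update v 0 (y i)) (m + 2) t0) 1 w (m + 2)) s' :=
          h10
        rw [Function.update_self, Function.update_of_ne (by omega), Function.update_self] at h11
        exact h11
      · by_cases hj1 : j = 1
        · subst hj1
          rw [Function.update_self, Function.update_self]
        · rw [Function.update_of_ne hj1, Function.update_of_ne hj1,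
            Function.update_of_ne (show j ≠ m + 2 by omega)]
    have k1 := key z' hz' (hF.mono _ _ _ _ hs' h5s)
    have k2 := key (act g (t (i, u))) (hH.act g hg _ (htH _)) (hF.mono _ _ _ _ hs' h4s)
    obtain ⟨k, hk⟩ := hz2 (i, u) g hg
    refine ⟨s', hs'.trans (hs1.trans (hr2.trans hr1)), ⟨(i, u), k⟩, ?_⟩
    simp only
    rw [← hk]
    exact hE.trans _ _ _ _ k1 (hE.symm _ _ _ k2)

end

/-- B8 -/
theorem zf3_holds (h : P_EQ) (h1 : P_ACT) (h2 : P_FC) (h3 : P_HS) (h4 : P_SET) (h5 : P_DEC)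
    (h6 : P_ORB) : P_ZF3 := by
  intro P _ _ S hS φ m hφ hm v0 hv0 p
  have hE := h P
  have hF := h2 P (HS S)
  have hH := h3 P S hS
  -- finitely many parameters
  obtain ⟨e, he⟩ := supp_fin hH hS v0 hv0 (m + 3)
  let v : ℕ → Nm P := fun i => v0 (min i (m + 3))
  have hv : ∀ i, HS S (v i) := fun i => hv0 _
  have hsup : ∃ e, ∀ g, g ∈ S.fix e → ∀ i p, feq (act g (v i)) (v i) p :=
    ⟨e, fun g hg i p => he g hg _ (min_le_right _ _) p⟩
  have hbd := bd_rep φ m hφ
  rw [hF.bd (Fm.axRep φ m) v0 v p (fun i hi => by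
    show v0 i = v0 (min i (m + 3))
    rw [min_eq_left (by omega)])]
  obtain ⟨Y, hY, hYm⟩ := main_aux hE hF hH h4 (h5 P S hS).1 (h6 P S hS) hS φ m hφ hm v hv hsup
  show ∀ q, q ≤ p → Fc (HS S) (hyp φ m) v q → Fc (HS S)
    (.ex (m + 1) (.all 1 (.iff (.mem 1 (m + 1)) (cnc φ m)))) v q
  intro q hq hHq
  rw [hF.ex]
  intro q1 hq1
  refine ⟨q1, le_rfl, Y, hY, ?_⟩
  show ∀ z, HS S z → Fc (HS S) (.iff (.mem 1 (m + 1)) (cnc φ m))
    (Function.update (Function.update v (m + 1) Y) 1 z) q1
  intro z hz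
  rw [hF.iff]
  intro q2 hq2
  have hb := bd_cnc φ m hφ
  rw [hF.bd (cnc φ m) (Function.update (Function.update v (m + 1) Y) 1 z)
    (Function.update v 1 z) q2 (fun i hi => by
      by_cases hi1 : i = 1
      · subst hi1
        rw [Function.update_self, Function.update_self]
      · rw [Function.update_of_ne hi1, Function.update_of_ne hi1,
          Function.update_of_ne (show i ≠ m + 1 by omega)])]
  have e1 : Fc (HS S) (.mem 1 (m + 1)) (Function.update (Function.update v (m + 1) Y) 1 z) q2 ↔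
      fmem z Y q2 := by
    show fmem (Function.update (Function.update v (m + 1) Y) 1 z 1)
      (Function.update (Function.update v (m + 1) Y) 1 z (m + 1)) q2 ↔ _
    rw [Function.update_self, Function.update_of_ne (by omega), Function.update_self]
  rw [e1, hYm z q2 hz]
  have hH2 : Fc (HS S) (hyp φ m) v q2 := hF.mono _ _ _ _ (hq2.trans hq1) hHq
  exact ⟨fun h => h.2, fun h => ⟨hH2, h⟩⟩

end Pool.Agent.W477.GM.R490
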